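import Pool.Agent.H909R3.B7.Final

/-!
# Doubly infinite permutations of almost all integers without 4-term progressions

For every function `h` that tends to infinity there is a set `R` of negative integers with at most
`h N` elements in `[-N, 0]`, for every `N`, such that the set of all other integers has a doubly
infinite permutation that avoids 4-term arithmetic progressions.

Proof. Let `T` be a fast growing sequence. The block `B k` consists of all `x` with
`T k ≤ |x| < T (k + 1)`, without the negative ones whose absolute value is close to `T k` or
`T (k + 1)`. The blocks are arranged alternately to the right and to the left of the earlier ones.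
Inside of `B k` the order is the lexicographic order of the 2-adic digits for even `k` and the
opposite order for odd `k`. In a monotone progression at most two terms can be in the same block; if
the last two terms are in the outermost block `B k`, then the first two terms can not be both in
`B (k - 1)` since the orders of `B (k - 1)` and `B k` are opposite, and otherwise the second term is
much smaller than `T k`, so that the first and the third term have nearly opposite values, which is
excluded by the removal of the numbers close to the ends. If only the last term is in `B k`, then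
the third, hence the first three terms are in `B (k - 1)`.
-/

set_option autoImplicit false

namespace Pool.Agent.Results.MP_b7b3bc_co.SparseException

open Pool.Agent.H909R3.B7

theorem result (h : ℕ → ℕ) (hh : Filter.Tendsto h Filter.atTop Filter.atTop) :
    ∃ (R : Set ℤ) (π : ℤ → ℤ),
      (∀ x ∈ R, x < 0) ∧
      (∀ N : ℕ, {x : ℤ | x ∈ R ∧ -(N : ℤ) ≤ x}.encard ≤ ((h N : ℕ) : ℕ∞)) ∧
      Function.Injective π ∧ Set.range π = Rᶜ ∧
      ∀ i j k l : ℤ, i < j → j < k → k < l → ∀ d : ℤ, d ≠ 0 →
        ¬ (π j = π i + d ∧ π k = π j + d ∧ π l = π k + d) := by
  have hM : ∀ c : ℕ, ∃ M : ℕ, ∀ n, M ≤ n → c ≤ h n := fun c =>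
    Filter.eventually_atTop.1 (hh.eventually_ge_atTop c)
  choose M hM using hM
  let T : ℕ → ℕ := fun k => Nat.rec 0 (fun _ t => 3 * t + M (6 * t) + 1) k
  have hT1 : ∀ k, T (k + 1) = 3 * T k + M (6 * T k) + 1 := fun _ => rfl
  have hT : Grow T := ⟨rfl, fun k => by rw [hT1]; omega⟩
  obtain ⟨π, h1, h2, h3⟩ := exists_perm hT
  refine ⟨{x | ¬ Good T x}, π, ?_, ?_, h1, ?_, ?_⟩
  · intro x hx
    by_contra hc
    exact hx (Or.inl (not_lt.1 hc))
  · intro N
    have hex : ∃ K, N + 2 * T K < T (K + 1) := by
      refine ⟨N, ?_⟩
      have := hT.2 N
      have := hT.le N
      omega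
    classical
    have hK := Nat.find_spec hex
    refine (sparse hT N _ hK).trans ?_
    norm_cast
    rcases Nat.eq_zero_or_pos (Nat.find hex) with h0 | h0
    · rw [h0]
      have : T (0 - 1) = 0 := hT.1
      rw [this]
      omega
    · have h5 := Nat.find_min hex (m := Nat.find hex - 1) (by omega)
      rw [Nat.sub_add_cancel h0] at h5
      have h6 := hT1 (Nat.find hex - 1)
      rw [Nat.sub_add_cancel h0] at h6
      apply hM
      omega
  · rw [h2]
    ext x
    simp
  · rintro i j k l hij hjk hkl d hd ⟨e1, e2, e3⟩
    have hg : ∀ n, Good T (π n) := fun n => by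
      have : π n ∈ Set.range π := ⟨n, rfl⟩
      rw [h2] at this
      exact this
    have r1 := h3 i j hij
    have r2 := h3 j k hjk
    have r3 := h3 k l hkl
    have g0 := hg i
    have g1 := hg j
    have g2 := hg k
    have g3 := hg l
    rw [e3, e2, e1] at r3 g3
    rw [e2, e1] at r2 g2
    rw [e1] at r1 g1
    exact no_ap hT (π i) d hd g0 g1 g2 g3 r1 r2 r3

end Pool.Agent.Results.MP_b7b3bc_co.SparseException
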